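import Pool.Agent.N805.JG.Stm

/-!
# JG/EIG: Andreief's identity and the eigenvalues
-/

set_option autoImplicit false

open MeasureTheory Filter Topology Matrix

namespace Pool.Agent.N459.JG

open Pool.Agent.N805.JG

/-! ### linear algebra -/

section la

variable {n : Type*} [Fintype n] [DecidableEq n]

lemma conj_trace (U : Matrix.unitaryGroup n ℂ) (X : Matrix n n ℂ) :
    (Unitary.conjStarAlgAut ℂ _ U X).trace = X.trace := by
  rw [Unitary.conjStarAlgAut_apply, Matrix.trace_mul_comm, ← mul_assoc, Unitary.coe_star_mul_self,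
    one_mul]

lemma conj_det (U : Matrix.unitaryGroup n ℂ) (X : Matrix n n ℂ) :
    (Unitary.conjStarAlgAut ℂ _ U X).det = X.det := by
  rw [Unitary.conjStarAlgAut_apply, Matrix.det_mul_comm, ← mul_assoc, Unitary.coe_star_mul_self,
    one_mul]

lemma sum_sq {A : Matrix n n ℂ} (hA : A.IsHermitian) :
    ((∑ i, hA.eigenvalues i ^ 2 : ℝ) : ℂ) = (A * A).trace := by
  have h1 : A * A = Unitary.conjStarAlgAut ℂ _ hA.eigenvectorUnitary
      (diagonal (RCLike.ofReal ∘ hA.eigenvalues) * diagonal (RCLike.ofReal ∘ hA.eigenvalues)) := by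
    rw [map_mul, ← hA.spectral_theorem]
  rw [h1, conj_trace, Matrix.diagonal_mul_diagonal, Matrix.trace_diagonal]
  push_cast
  refine Finset.sum_congr rfl fun i _ => ?_
  simp [pow_two]

lemma det_one_add {A : Matrix n n ℂ} (hA : A.IsHermitian) (c : ℝ) :
    (1 + (c : ℂ) • A).det = ((∏ i, (1 + c * hA.eigenvalues i) : ℝ) : ℂ) := by
  have h1 : 1 + (c : ℂ) • A = Unitary.conjStarAlgAut ℂ _ hA.eigenvectorUnitary
      (1 + (c : ℂ) • diagonal (RCLike.ofReal ∘ hA.eigenvalues)) := by
    rw [map_add, map_one, map_smul, ← hA.spectral_theorem]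
  have h2 : (1 + (c : ℂ) • diagonal ((RCLike.ofReal : ℝ → ℂ) ∘ hA.eigenvalues) : Matrix n n ℂ) =
      diagonal (fun i => 1 + (c : ℂ) * ((RCLike.ofReal : ℝ → ℂ) ∘ hA.eigenvalues) i) := by
    rw [← Matrix.diagonal_one, ← Matrix.diagonal_smul, Matrix.diagonal_add]
    rfl
  rw [h1, conj_det, h2, Matrix.det_diagonal]
  push_cast
  rfl

end la

/-- Andreief's identity (as in `Pool.Agent.H940R3.VD.andreief_abs`) -/
lemma andreief_abs {ι X : Type*} [Fintype ι] [DecidableEq ι] [MeasurableSpace X]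
    (μ : Measure X) [IsFiniteMeasure μ] (m : X → ι → ℂ) (g : ι → ι → X → ℂ)
    (hg : ∀ α β z, g α β z = star (m z α) * m z β)
    (hint : ∀ α β, Integrable (g α β) μ) (G : Matrix ι ι ℂ) (hG : ∀ α β, G α β = ∫ z, g α β z ∂μ) :
    ((∫ x, ‖(Matrix.of fun (j : ι) α => m (x j) α).det‖ ^ 2 ∂(Measure.pi fun _ : ι => μ) : ℝ) : ℂ) =
      (Fintype.card ι).factorial * G.det := by
  have hI0 : ∀ τ σ : Equiv.Perm ι, Integrable (fun x : ι → X => ∏ j, g (τ j) (σ j) (x j))
      (Measure.pi fun _ : ι => μ) := by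
    intro τ σ
    exact Integrable.fintype_prod (f := fun j => g (τ j) (σ j)) (μ := fun _ : ι => μ)
      (fun j => hint (τ j) (σ j))
  have hI : ∀ τ σ : Equiv.Perm ι, Integrable (fun x : ι → X =>
      (((Equiv.Perm.sign τ : ℤ) : ℂ) * ((Equiv.Perm.sign σ : ℤ) : ℂ)) *
        ∏ j, g (τ j) (σ j) (x j)) (Measure.pi fun _ : ι => μ) := fun τ σ => (hI0 τ σ).const_mul _
  have hI2 : ∀ τ : Equiv.Perm ι, Integrable (fun x : ι → X => ∑ σ : Equiv.Perm ι,
      (((Equiv.Perm.sign τ : ℤ) : ℂ) * ((Equiv.Perm.sign σ : ℤ) : ℂ)) *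
        ∏ j, g (τ j) (σ j) (x j)) (Measure.pi fun _ : ι => μ) :=
    fun τ => integrable_finsetSum _ fun σ _ => hI τ σ
  have h1 : ∀ x : ι → X, ((‖(Matrix.of fun (j : ι) α => m (x j) α).det‖ ^ 2 : ℝ) : ℂ) =
      ∑ τ : Equiv.Perm ι, ∑ σ : Equiv.Perm ι,
        (((Equiv.Perm.sign τ : ℤ) : ℂ) * ((Equiv.Perm.sign σ : ℤ) : ℂ)) *
          ∏ j, g (τ j) (σ j) (x j) := by
    intro x
    have e1 : ((‖(Matrix.of fun (j : ι) α => m (x j) α).det‖ ^ 2 : ℝ) : ℂ) =
        star ((Matrix.of fun (j : ι) α => m (x j) α).det) * (Matrix.of fun (j : ι) α => m (x j) α).det := by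
      rw [Complex.star_def, mul_comm, Complex.mul_conj, Complex.normSq_eq_norm_sq]
    have e2 : (Matrix.of fun (j : ι) α => m (x j) α).det = ∑ σ : Equiv.Perm ι,
        ((Equiv.Perm.sign σ : ℤ) : ℂ) * ∏ j, m (x j) (σ j) := by
      rw [← det_transpose, det_apply']
      rfl
    rw [e1, e2, star_sum, Finset.sum_mul_sum]
    apply Finset.sum_congr rfl
    intro τ _
    apply Finset.sum_congr rfl
    intro σ _
    have e3 : star ((Equiv.Perm.sign τ : ℤ) : ℂ) = ((Equiv.Perm.sign τ : ℤ) : ℂ) := by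
      rw [Complex.star_def, map_intCast]
    have e4 : ∏ j, g (τ j) (σ j) (x j) = (∏ j, star (m (x j) (τ j))) * ∏ j, m (x j) (σ j) := by
      rw [← Finset.prod_mul_distrib]
      exact Finset.prod_congr rfl fun j _ => hg _ _ _
    rw [star_mul', star_prod, e3, e4]
    ring
  rw [← integral_complex_ofReal]
  have h2 : ∀ τ : Equiv.Perm ι, ∫ x : ι → X, ∑ σ : Equiv.Perm ι,
      (((Equiv.Perm.sign τ : ℤ) : ℂ) * ((Equiv.Perm.sign σ : ℤ) : ℂ)) *
        ∏ j, g (τ j) (σ j) (x j) ∂(Measure.pi fun _ : ι => μ) = G.det := by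
    intro τ
    rw [integral_finsetSum _ (fun σ _ => hI τ σ)]
    have h4 : ∀ σ : Equiv.Perm ι, ∫ x : ι → X,
        (((Equiv.Perm.sign τ : ℤ) : ℂ) * ((Equiv.Perm.sign σ : ℤ) : ℂ)) *
        ∏ j, g (τ j) (σ j) (x j) ∂(Measure.pi fun _ : ι => μ) =
        ((Equiv.Perm.sign τ : ℤ) : ℂ) * (((Equiv.Perm.sign σ : ℤ) : ℂ) *
          ∏ j, G (τ j) (σ j)) := by
      intro σ
      rw [integral_const_mul]
      have := integral_fintype_prod_eq_prod (𝕜 := ℂ) (μ := fun _ : ι => μ)
        (fun (j : ι) => g (τ j) (σ j))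
      rw [this, mul_assoc]
      congr 2
      exact Finset.prod_congr rfl fun j _ => (hG _ _).symm
    rw [Finset.sum_congr rfl fun σ _ => h4 σ, ← Finset.mul_sum]
    have h5 : ∑ σ : Equiv.Perm ι, ((Equiv.Perm.sign σ : ℤ) : ℂ) * ∏ j, G (τ j) (σ j) =
        ((Equiv.Perm.sign τ : ℤ) : ℂ) * G.det := by
      have h6 := Matrix.det_permute τ G
      rw [← h6, ← det_transpose, det_apply']
      rfl
    rw [h5, ← mul_assoc]
    have h7 : ((Equiv.Perm.sign τ : ℤ) : ℂ) * ((Equiv.Perm.sign τ : ℤ) : ℂ) = 1 := by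
      rcases Int.units_eq_one_or (Equiv.Perm.sign τ) with h | h <;> rw [h] <;> simp
    rw [h7, one_mul]
  rw [integral_congr_ae (Filter.Eventually.of_forall h1),
    integral_finsetSum _ (fun τ _ => hI2 τ), Finset.sum_congr rfl fun τ _ => h2 τ,
    Finset.sum_const, Finset.card_univ, Fintype.card_perm, nsmul_eq_mul]

/-! ### exponentials -/

lemma e_pow (t : ℝ) (k : ℕ) : e t ^ k = e (k * t) := by
  unfold e
  rw [← Complex.exp_nat_mul]
  congr 1
  push_cast
  ring

lemma star_e (t : ℝ) : star (e t) = e (-t) := by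
  unfold e
  rw [Complex.star_def, ← Complex.exp_conj]
  congr 1
  simp only [map_mul, Complex.conj_ofReal, Complex.conj_I, map_ofNat]
  push_cast
  ring

lemma e_add (s t : ℝ) : e s * e t = e (s + t) := by
  unfold e
  rw [← Complex.exp_add]
  congr 1
  push_cast
  ring

lemma star_mul_e (t : ℝ) (j k : ℕ) : star (e t ^ j) * e t ^ k = e (((k : ℝ) - j) * t) := by
  rw [e_pow, e_pow, star_e, e_add]
  congr 1
  ring

lemma norm_e (t : ℝ) : ‖e t‖ = 1 := by
  unfold e
  have : (2 * (Real.pi : ℂ) * t * Complex.I) = ((2 * Real.pi * t : ℝ) : ℂ) * Complex.I := by push_cast; ring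
  rw [this, Complex.norm_exp_ofReal_mul_I]

lemma e_cont : Continuous e := by
  unfold e
  fun_prop

lemma e_meas : Measurable e := e_cont.measurable

lemma int_star {ν : Measure ℝ} [IsFiniteMeasure ν] (j k : ℕ) :
    Integrable (fun t => star (e t ^ j) * e t ^ k) ν := by
  have hc : Continuous (fun t => star (e t ^ j) * e t ^ k) :=
    ((e_cont.pow j).star).mul (e_cont.pow k)
  refine Integrable.of_bound hc.aestronglyMeasurable 1 (Eventually.of_forall fun t => ?_)
  rw [norm_mul, norm_star, norm_pow, norm_pow, norm_e]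
  simp

/-- the Toeplitz matrix -/
noncomputable def TT (M : ℕ) (ν : Measure ℝ) : Matrix (Fin M) (Fin M) ℂ :=
  Matrix.of fun j k => ∫ t, star (e t ^ (j : ℕ)) * e t ^ (k : ℕ) ∂ν

lemma TT_herm (M : ℕ) (ν : Measure ℝ) : (TT M ν).IsHermitian := by
  ext j k
  rw [Matrix.conjTranspose_apply]
  simp only [TT, Matrix.of_apply]
  rw [Complex.star_def, ← integral_conj]
  congr 1
  funext t
  rw [← Complex.star_def, star_mul', star_star, mul_comm]

lemma quad {M : ℕ} {ν : Measure ℝ} [IsFiniteMeasure ν] (c : Fin M → ℂ) :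
    star c ⬝ᵥ (TT M ν *ᵥ c) = ((∫ t, ‖∑ k, c k * e t ^ (k : ℕ)‖ ^ 2 ∂ν : ℝ) : ℂ) := by
  rw [← integral_complex_ofReal]
  have h1 : ∀ t, ((‖∑ k, c k * e t ^ (k : ℕ)‖ ^ 2 : ℝ) : ℂ) =
      ∑ j, ∑ k, (star (c j) * c k) * (star (e t ^ (j : ℕ)) * e t ^ (k : ℕ)) := by
    intro t
    have e1 : ((‖∑ k, c k * e t ^ (k : ℕ)‖ ^ 2 : ℝ) : ℂ) =
        star (∑ k, c k * e t ^ (k : ℕ)) * (∑ k, c k * e t ^ (k : ℕ)) := by
      rw [Complex.star_def, mul_comm, Complex.mul_conj, Complex.normSq_eq_norm_sq]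
    rw [e1, star_sum, Finset.sum_mul_sum]
    refine Finset.sum_congr rfl fun j _ => Finset.sum_congr rfl fun k _ => ?_
    rw [star_mul']
    ring
  rw [integral_congr_ae (Eventually.of_forall h1)]
  have hI : ∀ j k : Fin M, Integrable (fun t => (star (c j) * c k) *
      (star (e t ^ (j : ℕ)) * e t ^ (k : ℕ))) ν := fun j k => (int_star _ _).const_mul _
  rw [integral_finsetSum _ (fun j _ => integrable_finsetSum _ fun k _ => hI j k)]
  simp only [dotProduct, Matrix.mulVec, TT, Matrix.of_apply, Pi.star_apply]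
  refine Finset.sum_congr rfl fun j _ => ?_
  rw [integral_finsetSum _ (fun k _ => hI j k), Finset.mul_sum]
  refine Finset.sum_congr rfl fun k _ => ?_
  rw [integral_const_mul]
  ring

/-- Lebesgue measure on the unit interval -/
noncomputable def mu : Measure ℝ := volume.restrict (Set.Ico (0 : ℝ) 1)

instance : IsProbabilityMeasure mu := by
  unfold mu
  constructor
  simp

lemma int_e (n : ℤ) : ∫ t, e (n * t) ∂mu = if n = 0 then 1 else 0 := by
  split_ifs with h
  · subst h
    have : ∀ t : ℝ, e (((0 : ℤ) : ℝ) * t) = 1 := by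
      intro t
      simp [e]
    simp only [this]
    simp
  · unfold mu
    rw [integral_Ico_eq_integral_Ioc, ← intervalIntegral.integral_of_le zero_le_one]
    have hc : (2 * (Real.pi : ℂ) * n * Complex.I) ≠ 0 := by
      have h1 : (n : ℂ) ≠ 0 := by exact_mod_cast h
      have h2 : (Real.pi : ℂ) ≠ 0 := by exact_mod_cast Real.pi_ne_zero
      exact mul_ne_zero (mul_ne_zero (mul_ne_zero two_ne_zero h2) h1) Complex.I_ne_zero
    have h3 : ∀ t : ℝ, e (n * t) = Complex.exp ((2 * (Real.pi : ℂ) * n * Complex.I) * t) := by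
      intro t
      unfold e
      congr 1
      push_cast
      ring
    simp only [h3]
    rw [integral_exp_mul_complex hc]
    have h4 : Complex.exp (2 * (Real.pi : ℂ) * n * Complex.I * (1 : ℝ)) = 1 := by
      have := Complex.exp_int_mul_two_pi_mul_I n
      rw [← this]
      congr 1
      push_cast
      ring
    rw [h4]
    simp

lemma TT_one (M : ℕ) : TT M mu = 1 := by
  ext j k
  simp only [TT, Matrix.of_apply, star_mul_e]
  have h1 := int_e ((k : ℤ) - (j : ℤ))
  push_cast at h1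
  rw [h1, Matrix.one_apply]
  by_cases h : j = k
  · rw [if_pos h, if_pos (by rw [h]; ring)]
  · rw [if_neg h, if_neg]
    intro h2
    apply h
    apply Fin.ext
    omega

/-! ### the eigenvalues -/

section eig

variable {M : ℕ} {U : Set ℝ}

lemma fin_U (hU : U ⊆ Set.Ico 0 1) : IsFiniteMeasure (volume.restrict U) := by
  constructor
  rw [Measure.restrict_apply_univ]
  refine (measure_mono hU).trans_lt ?_
  simp

lemma vol_U_le (hU : U ⊆ Set.Ico 0 1) : volume.restrict U ≤ mu := by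
  unfold mu
  exact Measure.restrict_mono hU le_rfl

lemma TT_trace (hU : U ⊆ Set.Ico 0 1) : (TT M (volume.restrict U)).trace = ((M * volume.real U : ℝ) : ℂ) := by
  have := fin_U hU
  unfold Matrix.trace
  have h1 : ∀ j : Fin M, (TT M (volume.restrict U)).diag j = (volume.real U : ℂ) := by
    intro j
    simp only [Matrix.diag_apply, TT, Matrix.of_apply]
    have h2 : ∀ t : ℝ, star (e t ^ (j : ℕ)) * e t ^ (j : ℕ) = 1 := by
      intro t
      rw [star_mul_e, sub_self, zero_mul]
      simp [e]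
    simp only [h2]
    rw [integral_const, Measure.real, Measure.restrict_apply_univ]
    simp [Measure.real]
  rw [Finset.sum_congr rfl fun j _ => h1 j, Finset.sum_const, Finset.card_univ, Fintype.card_fin]
  push_cast
  rw [nsmul_eq_mul]

lemma TT_sq (hU : U ⊆ Set.Ico 0 1) : (TT M (volume.restrict U) * TT M (volume.restrict U)).trace =
    ((∑ j : Fin M, ∑ k : Fin M, ‖∫ t in U, e (((j : ℝ) - k) * t)‖ ^ 2 : ℝ) : ℂ) := by
  have := fin_U hU
  unfold Matrix.trace
  push_cast
  refine Finset.sum_congr rfl fun j _ => ?_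
  rw [Matrix.diag_apply, Matrix.mul_apply]
  refine Finset.sum_congr rfl fun k _ => ?_
  have h1 : TT M (volume.restrict U) j k = star (TT M (volume.restrict U) k j) := by
    rw [← Matrix.conjTranspose_apply, TT_herm]
  have h2 : TT M (volume.restrict U) k j = ∫ t in U, e (((j : ℝ) - k) * t) := by
    simp only [TT, Matrix.of_apply, star_mul_e]
  rw [h1, h2, Complex.star_def, mul_comm, Complex.mul_conj, Complex.normSq_eq_norm_sq]
  push_cast
  rfl

lemma norm_poly_meas (c : Fin M → ℂ) : Continuous (fun t => ‖∑ k, c k * e t ^ (k : ℕ)‖ ^ 2) := by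
  have : Continuous (fun t => ∑ k, c k * e t ^ (k : ℕ)) :=
    continuous_finsetSum _ fun k _ => continuous_const.mul (e_cont.pow _)
  exact (this.norm).pow 2

lemma norm_poly_int {ν : Measure ℝ} [IsFiniteMeasure ν] (c : Fin M → ℂ) :
    Integrable (fun t => ‖∑ k, c k * e t ^ (k : ℕ)‖ ^ 2) ν := by
  refine Integrable.of_bound (norm_poly_meas c).aestronglyMeasurable ((∑ k, ‖c k‖) ^ 2)
    (Eventually.of_forall fun t => ?_)
  rw [norm_pow, norm_norm]
  refine pow_le_pow_left₀ (norm_nonneg _) ?_ 2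
  refine (norm_sum_le _ _).trans (Finset.sum_le_sum fun k _ => ?_)
  rw [norm_mul, norm_pow, norm_e, one_pow, mul_one]

lemma eig_bounds (hU : U ⊆ Set.Ico 0 1) (i : Fin M) :
    0 ≤ (TT_herm M (volume.restrict U)).eigenvalues i ∧
      (TT_herm M (volume.restrict U)).eigenvalues i ≤ 1 := by
  have := fin_U hU
  set hA := TT_herm M (volume.restrict U)
  have h1 := hA.eigenvalues_eq i
  rw [quad] at h1
  have h2 : hA.eigenvalues i = ∫ t in U, ‖∑ k, hA.eigenvectorBasis i k * e t ^ (k : ℕ)‖ ^ 2 := by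
    rw [h1]
    exact Complex.ofReal_re _
  have h3 : ∫ t, ‖∑ k, hA.eigenvectorBasis i k * e t ^ (k : ℕ)‖ ^ 2 ∂mu = 1 := by
    have h4 := quad (ν := mu) (fun k => hA.eigenvectorBasis i k)
    rw [TT_one, Matrix.one_mulVec] at h4
    have h5 : star (fun k => hA.eigenvectorBasis i k) ⬝ᵥ (fun k => hA.eigenvectorBasis i k) = 1 := by
      have h6 := hA.eigenvectorBasis.orthonormal.1 i
      have h7 : inner ℂ (hA.eigenvectorBasis i) (hA.eigenvectorBasis i) = 1 := by
        rw [inner_self_eq_norm_sq_to_K, h6]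
        simp
      rw [← h7, EuclideanSpace.inner_eq_star_dotProduct, dotProduct_comm]
    rw [h5] at h4
    exact_mod_cast h4.symm
  rw [h2]
  refine ⟨integral_nonneg fun t => by positivity, ?_⟩
  rw [← h3]
  exact integral_mono_measure (vol_U_le hU) (Eventually.of_forall fun t => by positivity)
    (norm_poly_int _)

end eig

/-! ### the integral -/

section final

variable {M : ℕ} {U : Set ℝ} {z : ℝ}

open Classical in
/-- the weight -/
noncomputable def wt (U : Set ℝ) (z x : ℝ) : ℝ := if x ∈ U then z else 1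

lemma wt_meas (hU : MeasurableSet U) : Measurable (wt U z) := by
  unfold wt
  exact Measurable.ite hU measurable_const measurable_const

lemma wt_nonneg (hz : 0 < z) (x : ℝ) : 0 ≤ wt U z x := by
  unfold wt
  split_ifs
  · exact hz.le
  · exact zero_le_one

lemma wt_le (x : ℝ) : wt U z x ≤ max 1 z := by
  unfold wt
  split_ifs
  · exact le_max_right _ _
  · exact le_max_left _ _

lemma num_eq (θ : Fin M → ℝ) : z ^ num θ U = ∏ i, wt U z (θ i) := by
  classical
  unfold num wt
  rw [Finset.prod_ite, Finset.prod_const, Finset.prod_const_one, mul_one]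

lemma G_entry (hUm : MeasurableSet U) (hU : U ⊆ Set.Ico 0 1) (j k : Fin M) :
    ∫ x, (wt U z x : ℂ) * (star (e x ^ (j : ℕ)) * e x ^ (k : ℕ)) ∂mu =
      (1 + ((z - 1 : ℝ) : ℂ) • TT M (volume.restrict U)) j k := by
  have h1 : ∀ x, (wt U z x : ℂ) * (star (e x ^ (j : ℕ)) * e x ^ (k : ℕ)) =
      star (e x ^ (j : ℕ)) * e x ^ (k : ℕ) +
        ((z - 1 : ℝ) : ℂ) * U.indicator (fun x => star (e x ^ (j : ℕ)) * e x ^ (k : ℕ)) x := by
    intro x
    unfold wt
    by_cases hx : x ∈ U
    · rw [if_pos hx, Set.indicator_of_mem hx]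
      push_cast
      ring
    · rw [if_neg hx, Set.indicator_of_notMem hx]
      push_cast
      ring
  have hI : Integrable (fun x => star (e x ^ (j : ℕ)) * e x ^ (k : ℕ)) mu := int_star _ _
  rw [integral_congr_ae (Eventually.of_forall h1), integral_add hI ((hI.indicator hUm).const_mul _),
    integral_const_mul, integral_indicator hUm]
  have h2 : mu.restrict U = volume.restrict U := by
    unfold mu
    rw [Measure.restrict_restrict hUm, Set.inter_eq_left.2 hU]
  rw [h2, Matrix.add_apply, Matrix.smul_apply, smul_eq_mul, ← TT_one M]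
  rfl

/-- the density -/
noncomputable def dens (M : ℕ) (θ : Fin M → ℝ) : ℝ :=
  (∏ i, ∏ j ∈ Finset.Ioi i, ‖e (θ j) - e (θ i)‖ ^ 2) / M.factorial

lemma cue_eq (M : ℕ) : cue M = (Measure.pi fun _ : Fin M => mu).withDensity
    (fun θ => ENNReal.ofReal (dens M θ)) := by
  unfold cue
  rw [volume_pi, Measure.restrict_pi_pi]
  rfl

lemma dens_meas (M : ℕ) : Measurable (dens M) := by
  unfold dens
  refine Measurable.div_const ?_ _
  refine Finset.measurable_fun_prod _ fun i _ => Finset.measurable_fun_prod _ fun j _ => ?_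
  exact ((e_meas.comp (measurable_pi_apply j)).sub (e_meas.comp (measurable_pi_apply i))).norm.pow_const 2

lemma dens_nonneg (M : ℕ) (θ : Fin M → ℝ) : 0 ≤ dens M θ := by
  unfold dens
  refine div_nonneg (Finset.prod_nonneg fun i _ => Finset.prod_nonneg fun j _ => by positivity)
    (Nat.cast_nonneg _)

lemma dens_le (M : ℕ) (θ : Fin M → ℝ) :
    dens M θ ≤ (∏ i : Fin M, ∏ _j ∈ Finset.Ioi i, (4 : ℝ)) / M.factorial := by
  unfold dens
  refine div_le_div_of_nonneg_right ?_ (Nat.cast_nonneg _)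
  refine Finset.prod_le_prod (fun i _ => Finset.prod_nonneg fun j _ => by positivity) fun i _ => ?_
  refine Finset.prod_le_prod (fun j _ => by positivity) fun j _ => ?_
  have h1 : ‖e (θ j) - e (θ i)‖ ≤ 2 := by
    refine (norm_sub_le _ _).trans ?_
    rw [norm_e, norm_e]
    norm_num
  calc ‖e (θ j) - e (θ i)‖ ^ 2 ≤ 2 ^ 2 := pow_le_pow_left₀ (norm_nonneg _) h1 2
    _ = 4 := by norm_num

lemma dens_int (M : ℕ) : Integrable (dens M) (Measure.pi fun _ : Fin M => mu) := by
  refine Integrable.of_bound (dens_meas M).aestronglyMeasurable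
    ((∏ i : Fin M, ∏ _j ∈ Finset.Ioi i, (4 : ℝ)) / M.factorial) (Eventually.of_forall fun θ => ?_)
  rw [Real.norm_of_nonneg (dens_nonneg M θ)]
  exact dens_le M θ

instance cue_fin (M : ℕ) : IsFiniteMeasure (cue M) := by
  rw [cue_eq]
  exact isFiniteMeasure_withDensity_ofReal (dens_int M).2

lemma prod_wt_meas (hU : MeasurableSet U) : Measurable (fun θ : Fin M → ℝ => ∏ i, wt U z (θ i)) :=
  Finset.measurable_fun_prod _ fun i _ => (wt_meas hU).comp (measurable_pi_apply i)

lemma int_num (hU : MeasurableSet U) (hz : 0 < z) :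
    Integrable (fun θ : Fin M → ℝ => z ^ num θ U) (cue M) := by
  simp only [num_eq]
  refine Integrable.of_bound (prod_wt_meas hU).aestronglyMeasurable ((max 1 z) ^ M)
    (Eventually.of_forall fun θ => ?_)
  rw [Real.norm_of_nonneg (Finset.prod_nonneg fun i _ => wt_nonneg hz _)]
  refine (Finset.prod_le_prod (fun i _ => wt_nonneg hz _) fun i _ => wt_le (θ i)).trans ?_
  rw [Finset.prod_const, Finset.card_univ, Fintype.card_fin]

/-- the functions of Andreief's identity -/
noncomputable def mf (U : Set ℝ) (z : ℝ) (M : ℕ) (x : ℝ) (α : Fin M) : ℂ :=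
  ((√(wt U z x) : ℝ) : ℂ) * e x ^ (α : ℕ)

lemma det_mf (hz : 0 < z) (θ : Fin M → ℝ) :
    ‖(Matrix.of fun (j : Fin M) α => mf U z M (θ j) α).det‖ ^ 2 =
      (∏ i, wt U z (θ i)) * ∏ i, ∏ j ∈ Finset.Ioi i, ‖e (θ j) - e (θ i)‖ ^ 2 := by
  have h1 : (Matrix.of fun (j : Fin M) α => mf U z M (θ j) α).det =
      (∏ i, ((√(wt U z (θ i)) : ℝ) : ℂ)) * (Matrix.vandermonde (fun i => e (θ i))).det := by
    rw [← Matrix.det_mul_column]
    rfl
  rw [h1, Matrix.det_vandermonde, norm_mul, mul_pow]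
  congr 1
  · rw [norm_prod, ← Finset.prod_pow]
    refine Finset.prod_congr rfl fun i _ => ?_
    rw [Complex.norm_real, Real.norm_of_nonneg (Real.sqrt_nonneg _), Real.sq_sqrt (wt_nonneg hz _)]
  · rw [norm_prod, ← Finset.prod_pow]
    refine Finset.prod_congr rfl fun i _ => ?_
    rw [norm_prod, ← Finset.prod_pow]

lemma wt_int (hUm : MeasurableSet U) (hz : 0 < z) (j k : ℕ) :
    Integrable (fun x => (wt U z x : ℂ) * (star (e x ^ j) * e x ^ k)) mu := by
  have hm : Measurable (fun x => (wt U z x : ℂ)) := Complex.measurable_ofReal.comp (wt_meas hUm)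
  have hc : Continuous (fun t => star (e t ^ j) * e t ^ k) :=
    ((e_cont.pow j).star).mul (e_cont.pow k)
  refine Integrable.of_bound (hm.mul hc.measurable).aestronglyMeasurable (max 1 z)
    (Eventually.of_forall fun x => ?_)
  rw [norm_mul, norm_mul, norm_star, norm_pow, norm_pow, norm_e, Complex.norm_real,
    Real.norm_of_nonneg (wt_nonneg hz _)]
  simpa using wt_le (U := U) (z := z) x

lemma integral_num (hUm : MeasurableSet U) (hU : U ⊆ Set.Ico 0 1) (hz : 0 < z) :
    ∫ θ, z ^ num θ U ∂(cue M) =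
      ∏ i, (1 + (z - 1) * (TT_herm M (volume.restrict U)).eigenvalues i) := by
  have h1 : ∫ θ, z ^ num θ U ∂(cue M) =
      (∫ θ, ‖(Matrix.of fun (j : Fin M) α => mf U z M (θ j) α).det‖ ^ 2
        ∂(Measure.pi fun _ : Fin M => mu)) / M.factorial := by
    rw [cue_eq, integral_withDensity_eq_integral_toReal_smul
      ((dens_meas M).ennreal_ofReal) (Eventually.of_forall fun _ => ENNReal.ofReal_lt_top),
      ← integral_div]
    congr 1
    funext θ
    rw [ENNReal.toReal_ofReal (dens_nonneg M θ), smul_eq_mul, num_eq, det_mf hz]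
    unfold dens
    ring
  have h2 := andreief_abs mu (mf U z M)
    (fun j k x => (wt U z x : ℂ) * (star (e x ^ (j : ℕ)) * e x ^ (k : ℕ)))
    (fun j k x => by
      have hs : ((√(wt U z x) : ℝ) : ℂ) * ((√(wt U z x) : ℝ) : ℂ) = (wt U z x : ℂ) := by
        rw [← Complex.ofReal_mul, Real.mul_self_sqrt (wt_nonneg hz x)]
      have hs2 : star ((√(wt U z x) : ℝ) : ℂ) = ((√(wt U z x) : ℝ) : ℂ) := by
        rw [Complex.star_def, Complex.conj_ofReal]
      unfold mf
      rw [← hs, star_mul', hs2]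
      ring)
    (fun j k => wt_int hUm hz _ _)
    (1 + ((z - 1 : ℝ) : ℂ) • TT M (volume.restrict U)) (fun j k => (G_entry hUm hU j k).symm)
  rw [det_one_add (TT_herm M (volume.restrict U)), Fintype.card_fin] at h2
  have h3 : ∫ θ, ‖(Matrix.of fun (j : Fin M) α => mf U z M (θ j) α).det‖ ^ 2
        ∂(Measure.pi fun _ : Fin M => mu) = (M.factorial : ℝ) *
      ∏ i, (1 + (z - 1) * (TT_herm M (volume.restrict U)).eigenvalues i) := by
    exact_mod_cast h2
  rw [h1, h3, mul_div_cancel_left₀]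
  exact_mod_cast M.factorial_ne_zero

theorem EIG : Pool.Agent.N805.JG.S_EIG := by
  intro M _ U hUm hU
  refine ⟨(TT_herm M (volume.restrict U)).eigenvalues, fun i => eig_bounds hU i, ?_, ?_, ?_⟩
  · have h1 := (TT_herm M (volume.restrict U)).trace_eq_sum_eigenvalues
    rw [TT_trace hU] at h1
    have h2 : ((∑ i, (TT_herm M (volume.restrict U)).eigenvalues i : ℝ) : ℂ) =
        ((M * volume.real U : ℝ) : ℂ) := by
      rw [h1]
      push_cast
      rfl
    exact_mod_cast h2
  · have h1 := (TT_herm M (volume.restrict U)).trace_eq_sum_eigenvalues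
    rw [TT_trace hU] at h1
    have h2 : ∑ i, (TT_herm M (volume.restrict U)).eigenvalues i = M * volume.real U := by
      have h2 : ((∑ i, (TT_herm M (volume.restrict U)).eigenvalues i : ℝ) : ℂ) =
          ((M * volume.real U : ℝ) : ℂ) := by
        rw [h1]
        push_cast
        rfl
      exact_mod_cast h2
    have h3 := sum_sq (TT_herm M (volume.restrict U))
    rw [TT_sq hU] at h3
    have h4 : ∑ i, (TT_herm M (volume.restrict U)).eigenvalues i ^ 2 =
        ∑ j : Fin M, ∑ k : Fin M, ‖∫ t in U, e (((j : ℝ) - k) * t)‖ ^ 2 := by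
      exact_mod_cast h3
    unfold V
    rw [← h2, ← h4, ← Finset.sum_sub_distrib]
    refine Finset.sum_congr rfl fun i _ => ?_
    ring
  · intro z hz
    exact ⟨int_num hUm hz, integral_num hUm hU hz⟩

end final

end Pool.Agent.N459.JG
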